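import Mathlib

set_option autoImplicit false

namespace Pool.Agent.Results.MP_b7e006_co.AllianceCounterexample

open Finset

variable {V : Type} [Fintype V] [DecidableEq V]

/-- `D` is a defensive alliance: it is nonempty and every `v ∈ D` has
`|N[v] ∩ D| ≥ |N(v) \ D|`. -/
def IsAlliance (G : SimpleGraph V) [DecidableRel G.Adj] (D : Finset V) : Prop :=
  D.Nonempty ∧ ∀ v ∈ D, #(G.neighborFinset v \ D) ≤ #(insert v (G.neighborFinset v) ∩ D)

/-- `D` is a locally minimal defensive alliance: it is a defensive alliance and removing any single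
vertex of `D` leaves a set which is not a defensive alliance. -/
def IsLocallyMinimal (G : SimpleGraph V) [DecidableRel G.Adj] (D : Finset V) : Prop :=
  IsAlliance G D ∧ ∀ v ∈ D, ¬ IsAlliance G (D.erase v)

instance (G : SimpleGraph V) [DecidableRel G.Adj] (D : Finset V) : Decidable (IsAlliance G D) := by
  unfold IsAlliance; infer_instance

instance (G : SimpleGraph V) [DecidableRel G.Adj] (D : Finset V) :
    Decidable (IsLocallyMinimal G D) := by
  unfold IsLocallyMinimal; infer_instance

/-- The join of a complete graph on `{0, 1, 2, 3}` and an empty graph on `{4, 5, 6}`, plus the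
vertex `7` adjacent to `4` and `5`. -/
def adj (x y : Fin 8) : Bool :=
  (x ≠ y && (x < 4 && y < 7)) || (x ≠ y && (y < 4 && x < 7)) || (x == 7 && (y == 4 || y == 5)) ||
    (y == 7 && (x == 4 || x == 5))

/-- The counterexample. -/
def G : SimpleGraph (Fin 8) where
  Adj x y := adj x y = true
  symm := ⟨by decide⟩
  loopless := ⟨by decide⟩

instance : DecidableRel G.Adj := fun x y => by unfold G; infer_instance

theorem result : ∃ G : SimpleGraph (Fin 8), ∃ _ : DecidableRel G.Adj, 2 ≤ G.minDegree ∧
    ∃ v, ¬ ∃ D : Finset (Fin 8), IsLocallyMinimal G D ∧ v ∈ D := by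
  refine ⟨G, inferInstance, by decide, 7, ?_⟩
  decide +kernel

end Pool.Agent.Results.MP_b7e006_co.AllianceCounterexample
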